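import Pool.Agent.Work.MP_f82ddf_cb.Hta

/-!
# Theorem M, P6, analytic end: the contradiction
-/

open Topology Filter Polynomial
open scoped Differential
open Pool.Agent.Work.MP_f82ddf_nt.DQ Pool.ThmM

namespace Pool.MCB

/-- The logarithmic derivatives of `x - c` and of `1 / x - c`. -/
noncomputable def GG (X : Mer) : ℂ ⊕ ℂ → Mer :=
  Sum.elim (fun c => X′ / (X - algebraMap ℂ Mer c))
    (fun c => (X⁻¹)′ / (X⁻¹ - algebraMap ℂ Mer c))

/-- Coefficients of numerators. -/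
def fm : ℂ ⊕ ℂ → Fin 2 → ℂ := Sum.elim (fun c => ![1, -c]) (fun c => ![-c, 1])

/-- Coefficients of denominators. -/
def fn : ℂ ⊕ ℂ → Fin 2 → ℂ := Sum.elim (fun _ => ![0, 1]) (fun _ => ![1, 0])

theorem one_deriv : (1 : Mer)′ = 0 := by
  have h := Mer.deriv_algebraMap 1
  rwa [map_one] at h

theorem GG_eq {X : Mer} (hXne : ∀ c, X ≠ algebraMap ℂ Mer c) (u : ℂ ⊕ ℂ) :
    (∑ i, algebraMap ℂ Mer (fm u i) * (![X, 1] : Fin 2 → Mer) i ≠ 0) ∧
    (∑ i, algebraMap ℂ Mer (fn u i) * (![X, 1] : Fin 2 → Mer) i ≠ 0) ∧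
    (∑ i, algebraMap ℂ Mer (fm u i) * (![X, 1] : Fin 2 → Mer) i)′ /
        (∑ i, algebraMap ℂ Mer (fm u i) * (![X, 1] : Fin 2 → Mer) i) -
      (∑ i, algebraMap ℂ Mer (fn u i) * (![X, 1] : Fin 2 → Mer) i)′ /
        (∑ i, algebraMap ℂ Mer (fn u i) * (![X, 1] : Fin 2 → Mer) i) = GG X u := by
  have hX0 : X ≠ 0 := by
    have := hXne 0
    rwa [map_zero] at this
  cases u with
  | inl c =>
    have h1 : ∑ i, algebraMap ℂ Mer (fm (Sum.inl c) i) * (![X, 1] : Fin 2 → Mer) i =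
        X - algebraMap ℂ Mer c := by
      rw [Fin.sum_univ_two]
      change algebraMap ℂ Mer 1 * X + algebraMap ℂ Mer (-c) * 1 = _
      rw [map_one, map_neg]; ring
    have h2 : ∑ i, algebraMap ℂ Mer (fn (Sum.inl c) i) * (![X, 1] : Fin 2 → Mer) i = 1 := by
      rw [Fin.sum_univ_two]
      change algebraMap ℂ Mer 0 * X + algebraMap ℂ Mer 1 * 1 = _
      rw [map_one, map_zero]; ring
    rw [h1, h2, om_sub_const_deriv, one_deriv, zero_div, sub_zero]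
    exact ⟨sub_ne_zero.2 (hXne c), one_ne_zero, rfl⟩
  | inr c =>
    have h1 : ∑ i, algebraMap ℂ Mer (fm (Sum.inr c) i) * (![X, 1] : Fin 2 → Mer) i =
        1 - algebraMap ℂ Mer c * X := by
      rw [Fin.sum_univ_two]
      change algebraMap ℂ Mer (-c) * X + algebraMap ℂ Mer 1 * 1 = _
      rw [map_one, map_neg]; ring
    have h2 : ∑ i, algebraMap ℂ Mer (fn (Sum.inr c) i) * (![X, 1] : Fin 2 → Mer) i = X := by
      rw [Fin.sum_univ_two]
      change algebraMap ℂ Mer 1 * X + algebraMap ℂ Mer 0 * 1 = _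
      rw [map_one, map_zero]; ring
    have h3 : 1 - algebraMap ℂ Mer c * X ≠ 0 := by
      intro h
      have hc : algebraMap ℂ Mer c ≠ 0 := by
        intro h0
        rw [h0, zero_mul, sub_zero] at h
        exact one_ne_zero h
      apply hXne c⁻¹
      rw [map_inv₀]
      exact eq_inv_of_mul_eq_one_left (by linear_combination -h)
    have h4 : (1 - algebraMap ℂ Mer c * X)′ = -(algebraMap ℂ Mer c * X′) := by
      rw [map_sub, one_deriv, Derivation.leibniz, Mer.deriv_algebraMap, smul_zero, add_zero,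
        zero_sub, smul_eq_mul]
    rw [h1, h2, h4]
    refine ⟨h3, hX0, ?_⟩
    change _ = (X⁻¹)′ / (X⁻¹ - algebraMap ℂ Mer c)
    rw [Derivation.leibniz_inv, smul_eq_mul]
    have h5 : X⁻¹ - algebraMap ℂ Mer c = (1 - algebraMap ℂ Mer c * X) / X := by
      field_simp
    rw [h5]
    field_simp
    ring

/-- Two regular differentials contradict the lemma of the logarithmic derivative. -/
theorem ana_core (hLGD : Stmt_LGD) (hLDX : Stmt_LDX) (hRAT : Stmt_RAT) {X B₁ B₂ : Mer}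
    (hXne : ∀ c, X ≠ algebraMap ℂ Mer c) (hXr : ¬ IsRat X)
    (T1 : ∀ c, TamAt X B₁ c) (T1' : ∀ c, TamAt X⁻¹ (X ^ 2 * B₁) c)
    (T2 : ∀ c, TamAt X B₂ c) (T2' : ∀ c, TamAt X⁻¹ (X ^ 2 * B₂) c)
    (hB2 : B₂ ≠ 0) (htr : ∀ s : ℂ[X], s ≠ 0 → aeval (B₁ / B₂) s ≠ 0)
    (p : ℂ[X][X]) (hp : p ≠ 0)
    (h : p.eval₂ (aeval (B₁ / B₂) : ℂ[X] →ₐ[ℂ] Mer).toRingHom X = 0) : False := by
  classical
  have hX0 : X ≠ 0 := by
    have := hXne 0
    rwa [map_zero] at this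
  have hX' : X′ ≠ 0 := by
    intro h0
    obtain ⟨c, hc⟩ := Mer.exists_algebraMap h0
    exact hXne c hc
  set t := B₁ / B₂ with ht
  have ht0 : t ≠ 0 := by
    have := htr Polynomial.X Polynomial.X_ne_zero
    rwa [aeval_X] at this
  obtain ⟨C₁, hC₁0, hC₁⟩ := height_alg hX0 ht0 htr p hp h
  obtain ⟨J₁, J₁', K₁, hK₁, hb₁⟩ := glob_bound hXne T1 T1'
  obtain ⟨J₂, J₂', K₂, hK₂, hb₂⟩ := glob_bound hXne T2 T2'
  set s : Finset (ℂ ⊕ ℂ) := (J₁ ∪ J₂).disjSum (J₁' ∪ J₂') with hs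
  have hsum : ∀ (J J' : Finset ℂ), J ⊆ J₁ ∪ J₂ → J' ⊆ J₁' ∪ J₂' → ∀ z : ℂ,
      ∑ c ∈ J, ‖rep (X′ / (X - algebraMap ℂ Mer c)) z‖ +
        ∑ c ∈ J', ‖rep ((X⁻¹)′ / (X⁻¹ - algebraMap ℂ Mer c)) z‖ ≤
      ∑ u ∈ s, ‖rep (GG X u) z‖ := by
    intro J J' hJ hJ' z
    rw [hs, Finset.sum_disjSum]
    refine add_le_add ?_ ?_
    · exact Finset.sum_le_sum_of_subset_of_nonneg hJ fun _ _ _ => norm_nonneg _
    · exact Finset.sum_le_sum_of_subset_of_nonneg hJ' fun _ _ _ => norm_nonneg _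
  obtain ⟨M₁, hM₁⟩ := mp_bound s (GG X) (B₁ * X′) K₁ (by
    filter_upwards [hb₁] with z hz
    exact hz.trans (mul_le_mul_of_nonneg_left
      (hsum J₁ J₁' Finset.subset_union_left Finset.subset_union_left z) hK₁))
  obtain ⟨M₂, hM₂⟩ := mp_bound s (GG X) (B₂ * X′) K₂ (by
    filter_upwards [hb₂] with z hz
    exact hz.trans (mul_le_mul_of_nonneg_left
      (hsum J₂ J₂' Finset.subset_union_right Finset.subset_union_right z) hK₂))
  have hent₁ := om_ent hLGD hXne T1 T1'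
  have hent₂ := om_ent hLGD hXne T2 T2'
  have hh₂ : B₂ * X′ ≠ 0 := mul_ne_zero hB2 hX'
  obtain ⟨M₃, hM₃⟩ := (all_TOP (Fin 2) ![B₁ * X′, B₂ * X′]).1 ![1, 0] ![0, 1] (by
    rw [Fin.sum_univ_two]
    change algebraMap ℂ Mer 0 * (B₁ * X′) + algebraMap ℂ Mer 1 * (B₂ * X′) ≠ 0
    rw [map_zero, map_one, zero_mul, one_mul, zero_add]
    exact hh₂)
  have hquot : (∑ i, algebraMap ℂ Mer ((![1, 0] : Fin 2 → ℂ) i) *
      (![B₁ * X′, B₂ * X′] : Fin 2 → Mer) i) /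
      (∑ i, algebraMap ℂ Mer ((![0, 1] : Fin 2 → ℂ) i) *
      (![B₁ * X′, B₂ * X′] : Fin 2 → Mer) i) = t := by
    rw [Fin.sum_univ_two, Fin.sum_univ_two]
    change (algebraMap ℂ Mer 1 * (B₁ * X′) + algebraMap ℂ Mer 0 * (B₂ * X′)) /
      (algebraMap ℂ Mer 0 * (B₁ * X′) + algebraMap ℂ Mer 1 * (B₂ * X′)) = t
    rw [map_zero, map_one, zero_mul, zero_mul, one_mul, one_mul, zero_add, add_zero, ht]
    field_simp
  rw [hquot] at hM₃
  have hgr := hRAT X hXr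
  have hgg := GG_eq hXne
  set ε : ℝ := 1 / (4 * (C₁ + 1)) with hε
  have hε0 : 0 < ε := by positivity
  set M : ℝ := |M₁| + |M₂| + |M₃| + 1 with hM
  have hM0 : 0 < M := by positivity
  -- choice of a large radius
  have hbig : ∀ᶠ r in atTop, 2 * C₁ * M < TT ![X, 1] r := by
    have h1 : ∀ᶠ r : ℝ in atTop, 1 ≤ TT ![X, 1] r / Real.log r := hgr.eventually_ge_atTop 1
    have h2 : ∀ᶠ r : ℝ in atTop, 2 * C₁ * M < Real.log r :=
      Real.tendsto_log_atTop.eventually_gt_atTop _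
    have h3 : ∀ᶠ r : ℝ in atTop, 0 < Real.log r :=
      Real.tendsto_log_atTop.eventually_gt_atTop _
    filter_upwards [h1, h2, h3] with r h4 h5 h6
    rw [le_div_iff₀ h6, one_mul] at h4
    linarith
  obtain ⟨r₀, hr₀⟩ := Filter.eventually_atTop.1 hbig
  obtain ⟨r, hr1, hr2, hr3⟩ := hLDX (Fin 2) s ![X, 1]
    (fun k => ∑ i, algebraMap ℂ Mer (fm k.1 i) * (![X, 1] : Fin 2 → Mer) i)
    (fun k => ∑ i, algebraMap ℂ Mer (fn k.1 i) * (![X, 1] : Fin 2 → Mer) i)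
    (fun k => fm k.1) (fun k => fn k.1) (fun _ => rfl) (fun _ => rfl)
    (fun k => (hgg k.1).1) (fun k => (hgg k.1).2.1) hgr ε hε0 r₀
  have hr0 : r ≠ 0 := by linarith
  have h1 : ∑ u ∈ s, MP (GG X u) r ≤ ε * TT ![X, 1] r := by
    refine le_trans (le_of_eq ?_) hr3
    rw [← Finset.sum_coe_sort s fun u => MP (GG X u) r]
    refine Finset.sum_congr rfl fun k _ => ?_
    rw [(hgg k.1).2.2]
  have h2 := hr₀ r hr1
  have h3 := hM₁ r hr0
  have h4 := hM₂ r hr0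
  have h5 := hM₃ r hr2
  have h6 := tt_pair hh₂ hent₁ hent₂ r hr2
  have h7 := hC₁ r hr2
  have h8 : TT ![t, 1] r + 1 ≤ 2 * (ε * TT ![X, 1] r) + M := by
    have := le_abs_self M₁
    have := le_abs_self M₂
    have := le_abs_self M₃
    linarith
  have h9 : TT ![X, 1] r ≤ C₁ * (2 * (ε * TT ![X, 1] r) + M) :=
    h7.trans (mul_le_mul_of_nonneg_left h8 hC₁0)
  have h10 : C₁ * (2 * ε) ≤ 1 / 2 := by
    rw [hε]
    have h11 : C₁ * (2 * (1 / (4 * (C₁ + 1)))) = C₁ / (2 * (C₁ + 1)) := by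
      field_simp
      ring
    rw [h11, div_le_div_iff₀ (by positivity) (by norm_num)]
    linarith
  have hTX : 0 ≤ TT ![X, 1] r := (all_CHR X).2.2.1 r hr2
  have h11 : C₁ * (2 * ε) * TT ![X, 1] r ≤ 1 / 2 * TT ![X, 1] r :=
    mul_le_mul_of_nonneg_right h10 hTX
  nlinarith

end Pool.MCB
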