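import Pool.Agent.Work.MP_f82ddf_cb.Ent

/-!
# Theorem M, P6, analytic end: pointwise bounds
-/

open Topology Filter Polynomial
open scoped Differential
open Pool.Agent.Work.MP_f82ddf_nt.DQ Pool.ThmM

namespace Pool.MCB

theorem rep_add (f g : Mer) : rep (f + g) =ᶠ[codiscrete ℂ] fun z => rep f z + rep g z :=
  all_ALG.2.1 f g

theorem rep_sub (f g : Mer) : rep (f - g) =ᶠ[codiscrete ℂ] fun z => rep f z - rep g z :=
  all_ALG.2.2.1 f g

theorem rep_mul (f g : Mer) : rep (f * g) =ᶠ[codiscrete ℂ] fun z => rep f z * rep g z :=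
  all_ALG.2.2.2.1 f g

theorem rep_inv (f : Mer) : rep f⁻¹ =ᶠ[codiscrete ℂ] fun z => (rep f z)⁻¹ :=
  all_ALG.2.2.2.2.1 f

theorem rep_const (a : ℂ) : rep (algebraMap ℂ Mer a) =ᶠ[codiscrete ℂ] fun _ => a :=
  all_ALG.2.2.2.2.2.2.1 a

theorem rep_ne {f : Mer} (hf : f ≠ 0) : ∀ᶠ z in codiscrete ℂ, rep f z ≠ 0 :=
  all_ALG.2.2.2.2.2.2.2 f hf

theorem rep_div (f g : Mer) : rep (f / g) =ᶠ[codiscrete ℂ] fun z => rep f z / rep g z := by
  rw [div_eq_mul_inv]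
  filter_upwards [rep_mul f g⁻¹, rep_inv g] with z h1 h2
  rw [h1, h2, div_eq_mul_inv]

theorem rep_pow (f : Mer) (n : ℕ) : rep (f ^ n) =ᶠ[codiscrete ℂ] fun z => rep f z ^ n := by
  induction n with
  | zero =>
    have h := rep_const 1
    rw [map_one] at h
    filter_upwards [h] with z hz
    rw [pow_zero, hz, pow_zero]
  | succ n ih =>
    filter_upwards [rep_mul (f ^ n) f, ih] with z h1 h2
    rw [pow_succ, h1, h2, pow_succ]

theorem rep_sum {ι : Type} (s : Finset ι) (f : ι → Mer) :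
    rep (∑ i ∈ s, f i) =ᶠ[codiscrete ℂ] fun z => ∑ i ∈ s, rep (f i) z := by
  classical
  induction s using Finset.induction_on with
  | empty =>
    have h := rep_const 0
    rw [map_zero] at h
    filter_upwards [h] with z hz
    rw [Finset.sum_empty, hz, Finset.sum_empty]
  | insert i s his ih =>
    filter_upwards [rep_add (f i) (∑ j ∈ s, f j), ih] with z h1 h2
    rw [Finset.sum_insert his, h1, h2, Finset.sum_insert his]

theorem rep_aeval (X : Mer) (s : ℂ[X]) :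
    rep (aeval X s) =ᶠ[codiscrete ℂ] fun z => s.eval (rep X z) := by
  rw [Polynomial.aeval_eq_sum_range]
  have h1 : ∀ i ∈ Finset.range (s.natDegree + 1), ∀ᶠ z in codiscrete ℂ,
      rep (s.coeff i • X ^ i) z = s.coeff i * rep X z ^ i := by
    intro i _
    rw [Algebra.smul_def]
    filter_upwards [rep_mul (algebraMap ℂ Mer (s.coeff i)) (X ^ i), rep_const (s.coeff i),
      rep_pow X i] with z h1 h2 h3
    rw [h1, h2, h3]
  filter_upwards [rep_sum (Finset.range (s.natDegree + 1)) (fun i => s.coeff i • X ^ i),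
    (Filter.eventually_all_finset _).2 h1] with z h2 h3
  rw [h2, Polynomial.eval_eq_sum_range]
  exact Finset.sum_congr rfl h3

/-- A polynomial relation holds pointwise. -/
theorem rep_rel {X Y : Mer} {p : ℂ[X][X]}
    (h : p.eval₂ (aeval X : ℂ[X] →ₐ[ℂ] Mer).toRingHom Y = 0) :
    ∀ᶠ z in codiscrete ℂ,
      ∑ i ∈ Finset.range (p.natDegree + 1), (p.coeff i).eval (rep X z) * rep Y z ^ i = 0 := by
  rw [Polynomial.eval₂_eq_sum_range] at h
  have h1 : ∀ i ∈ Finset.range (p.natDegree + 1), ∀ᶠ z in codiscrete ℂ,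
      rep ((aeval X : ℂ[X] →ₐ[ℂ] Mer).toRingHom (p.coeff i) * Y ^ i) z =
        (p.coeff i).eval (rep X z) * rep Y z ^ i := by
    intro i _
    filter_upwards [rep_mul ((aeval X : ℂ[X] →ₐ[ℂ] Mer).toRingHom (p.coeff i)) (Y ^ i),
      rep_aeval X (p.coeff i), rep_pow Y i] with z h1 h2 h3
    rw [h1, h3]
    congr 1
  have h0 := rep_const 0
  rw [map_zero] at h0
  have h5 := rep_sum (Finset.range (p.natDegree + 1))
    (fun i => (aeval X : ℂ[X] →ₐ[ℂ] Mer).toRingHom (p.coeff i) * Y ^ i)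
  rw [h] at h5
  filter_upwards [h5, (Filter.eventually_all_finset _).2 h1, h0] with z h2 h3 h4
  rw [h4] at h2
  rw [h2]
  exact (Finset.sum_congr rfl h3).symm

/-- Bound for the roots of a monic polynomial. -/
theorem root_bound (n : ℕ) (a : ℕ → ℂ) (w : ℂ) (A : ℝ) (hA : 0 ≤ A)
    (ha : ∀ i < n, ‖a i‖ ≤ A) (h : ∑ i ∈ Finset.range n, a i * w ^ i + w ^ n = 0) :
    ‖w‖ ≤ 1 + n * A := by
  by_cases hw : ‖w‖ ≤ 1
  · have : 0 ≤ (n : ℝ) * A := by positivity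
    linarith
  rw [not_le] at hw
  have hw0 : 0 < ‖w‖ := by linarith
  cases n with
  | zero =>
    rw [Finset.sum_range_zero, zero_add, pow_zero] at h
    exact absurd h one_ne_zero
  | succ m =>
    have h1 : ‖w‖ ^ (m + 1) ≤ (m + 1 : ℕ) * A * ‖w‖ ^ m := by
      have h2 : w ^ (m + 1) = -∑ i ∈ Finset.range (m + 1), a i * w ^ i := by
        linear_combination h
      rw [← norm_pow, h2, norm_neg]
      refine (norm_sum_le _ _).trans ?_
      have h3 : ∀ i ∈ Finset.range (m + 1), ‖a i * w ^ i‖ ≤ A * ‖w‖ ^ m := by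
        intro i hi
        have hi' := Finset.mem_range.1 hi
        rw [norm_mul, norm_pow]
        refine mul_le_mul (ha i hi') ?_ (by positivity) hA
        exact pow_le_pow_right₀ hw.le (by omega)
      refine (Finset.sum_le_sum h3).trans ?_
      rw [Finset.sum_const, Finset.card_range, nsmul_eq_mul]
      exact le_of_eq (by ring)
    rw [pow_succ] at h1
    have h2 : ‖w‖ ≤ (m + 1 : ℕ) * A := by
      have h3 : 0 < ‖w‖ ^ m := by positivity
      nlinarith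
    linarith

theorem exists_coeff_bound (p : ℂ[X][X]) (R : ℝ) :
    ∃ A : ℝ, 0 ≤ A ∧ ∀ i ≤ p.natDegree, ∀ w : ℂ, ‖w‖ ≤ R → ‖(p.coeff i).eval w‖ ≤ A := by
  have h1 : ∀ i : ℕ, ∃ A : ℝ, 0 ≤ A ∧ ∀ w : ℂ, ‖w‖ ≤ R → ‖(p.coeff i).eval w‖ ≤ A := by
    intro i
    obtain ⟨C, hC⟩ := (isCompact_closedBall (0 : ℂ) R).exists_bound_of_continuousOn
      (f := fun w => (p.coeff i).eval w) (Polynomial.continuous _).continuousOn
    refine ⟨max C 0, le_max_right _ _, fun w hw => (hC w ?_).trans (le_max_left _ _)⟩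
    rwa [mem_closedBall_zero_iff]
  choose A hA0 hA using h1
  refine ⟨∑ i ∈ Finset.range (p.natDegree + 1), A i, Finset.sum_nonneg fun i _ => hA0 i, ?_⟩
  intro i hi w hw
  refine (hA i w hw).trans ?_
  exact Finset.single_le_sum (f := A) (fun j _ => hA0 j) (Finset.mem_range.2 (by omega))

/-- Integral elements are bounded where `x` is. -/
theorem int_bound {X Y : Mer} (h : IntP X Y) (R : ℝ) :
    ∃ K : ℝ, 0 ≤ K ∧ ∀ᶠ z in codiscrete ℂ, ‖rep X z‖ ≤ R → ‖rep Y z‖ ≤ K := by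
  obtain ⟨p, hp, h0⟩ := h
  obtain ⟨A, hA0, hA⟩ := exists_coeff_bound p R
  refine ⟨1 + p.natDegree * A, by positivity, ?_⟩
  filter_upwards [rep_rel h0] with z hz hzR
  refine root_bound p.natDegree (fun i => (p.coeff i).eval (rep X z)) (rep Y z) A hA0
    (fun i hi => hA i hi.le _ hzR) ?_
  rw [Finset.sum_range_succ] at hz
  have h3 : p.coeff p.natDegree = 1 := hp
  rw [h3, Polynomial.eval_one, one_mul] at hz
  exact hz

/-- The bound near `c`. -/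
theorem tam_bound {X B : Mer} {c : ℂ} (h : TamAt X B c) :
    ∃ δ K : ℝ, 0 < δ ∧ 0 ≤ K ∧ ∀ᶠ z in codiscrete ℂ, ‖rep X z - c‖ < δ →
      ‖rep B z‖ * ‖rep X z - c‖ ≤ K := by
  obtain ⟨N, s, hN, hs, hint⟩ := h
  obtain ⟨K₁, hK₁, hb⟩ := int_bound hint (‖c‖ + 1)
  have hc : ContinuousAt (fun w : ℂ => ‖s.eval w‖) c := (Polynomial.continuous s).norm.continuousAt
  have hpos : 0 < ‖s.eval c‖ := norm_pos_iff.2 hs
  have h1 : ∀ᶠ w in 𝓝 c, ‖s.eval c‖ / 2 < ‖s.eval w‖ :=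
    hc.eventually (lt_mem_nhds (by linarith))
  obtain ⟨δ, hδ, hδ1⟩ := Metric.eventually_nhds_iff.1 h1
  set ε := ‖s.eval c‖ / 2 with hε
  have hε0 : 0 < ε := by positivity
  refine ⟨min δ 1, 1 + K₁ / ε, lt_min hδ one_pos, by positivity, ?_⟩
  filter_upwards [hb, rep_mul (aeval X s * B ^ N) ((X - algebraMap ℂ Mer c) ^ (N - 1)),
    rep_mul (aeval X s) (B ^ N), rep_pow B N, rep_pow (X - algebraMap ℂ Mer c) (N - 1),
    rep_sub X (algebraMap ℂ Mer c), rep_const c, rep_aeval X s] with z h2 h3 h4 h5 h6 h7 h8 h9 h10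
  have h11 : ‖rep X z - c‖ < δ := lt_of_lt_of_le h10 (min_le_left _ _)
  have h12 : ‖rep X z - c‖ < 1 := lt_of_lt_of_le h10 (min_le_right _ _)
  have h13 : ‖rep X z‖ ≤ ‖c‖ + 1 := by
    have h14 : ‖rep X z‖ ≤ ‖rep X z - c‖ + ‖c‖ := by
      have := norm_add_le (rep X z - c) c
      rwa [sub_add_cancel] at this
    linarith
  have h15 := h2 h13
  rw [h3, h4, h5, h6, h7, h8, h9, norm_mul, norm_mul, norm_pow, norm_pow] at h15
  have h16 : ε < ‖s.eval (rep X z)‖ := hδ1 (by rwa [dist_eq_norm])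
  set β := ‖rep B z‖ with hβ
  set ξ := ‖rep X z - c‖ with hξ
  have hβ0 : 0 ≤ β := norm_nonneg _
  have hξ0 : 0 ≤ ξ := norm_nonneg _
  have h17 : ε * (β * ξ) ^ N ≤ K₁ := by
    calc ε * (β * ξ) ^ N = ε * β ^ N * (ξ ^ (N - 1) * ξ) := by
          rw [mul_pow, ← pow_succ, Nat.sub_add_cancel hN]; ring
      _ ≤ ‖s.eval (rep X z)‖ * β ^ N * (ξ ^ (N - 1) * 1) := by
          have h18 : ε * β ^ N ≤ ‖s.eval (rep X z)‖ * β ^ N :=
            mul_le_mul_of_nonneg_right h16.le (by positivity)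
          have h19 : ξ ^ (N - 1) * ξ ≤ ξ ^ (N - 1) * 1 :=
            mul_le_mul_of_nonneg_left h12.le (by positivity)
          exact mul_le_mul h18 h19 (by positivity) (by positivity)
      _ ≤ K₁ := by rw [mul_one]; exact h15
  by_contra hlt
  rw [not_le] at hlt
  have h18 : 1 < β * ξ := by
    have : 0 ≤ K₁ / ε := by positivity
    linarith
  have h19 : β * ξ ≤ (β * ξ) ^ N := by
    calc β * ξ = (β * ξ) ^ 1 := (pow_one _).symm
      _ ≤ (β * ξ) ^ N := pow_le_pow_right₀ h18.le hN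
  have h20 : (β * ξ) ^ N ≤ K₁ / ε := by
    rw [le_div_iff₀ hε0]
    linarith
  linarith

/-- The bound on `|x| ≤ 1`. -/
theorem ball_bound {X B : Mer} (hXne : ∀ c, X ≠ algebraMap ℂ Mer c) (h : ∀ c, TamAt X B c) :
    ∃ (J : Finset ℂ) (K : ℝ), 0 ≤ K ∧ ∀ᶠ z in codiscrete ℂ, ‖rep X z‖ ≤ 1 →
      ‖rep (B * X′) z‖ ≤ K * ∑ c ∈ J, ‖rep (X′ / (X - algebraMap ℂ Mer c)) z‖ := by
  choose δ K hδ hK hb using fun c => tam_bound (h c)
  obtain ⟨J, hJ⟩ := (isCompact_closedBall (0 : ℂ) 1).elim_finite_subcover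
    (fun c : ℂ => Metric.ball c (δ c)) (fun c => Metric.isOpen_ball)
    (fun c _ => Set.mem_iUnion.2 ⟨c, Metric.mem_ball_self (hδ c)⟩)
  refine ⟨J, ∑ c ∈ J, K c, Finset.sum_nonneg fun c _ => hK c, ?_⟩
  have h1 : ∀ c ∈ J, ∀ᶠ z in codiscrete ℂ, (‖rep X z - c‖ < δ c →
      ‖rep B z‖ * ‖rep X z - c‖ ≤ K c) ∧ rep X z - c ≠ 0 ∧
      rep (X′ / (X - algebraMap ℂ Mer c)) z = rep (X′) z / (rep X z - c) := by
    intro c _
    filter_upwards [hb c, rep_ne (sub_ne_zero.2 (hXne c)), rep_sub X (algebraMap ℂ Mer c),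
      rep_const c, rep_div (X′) (X - algebraMap ℂ Mer c)] with z h1 h2 h3 h4 h5
    rw [h3, h4] at h2
    rw [h3, h4] at h5
    exact ⟨h1, h2, h5⟩
  filter_upwards [(Filter.eventually_all_finset _).2 h1, rep_mul B (X′)] with z h2 h3 h4
  have h5 : rep X z ∈ ⋃ c ∈ J, Metric.ball c (δ c) := hJ (by rwa [mem_closedBall_zero_iff])
  obtain ⟨c, hc⟩ := Set.mem_iUnion.1 h5
  obtain ⟨hcJ, hc2⟩ := Set.mem_iUnion.1 hc
  rw [Metric.mem_ball, dist_eq_norm] at hc2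
  obtain ⟨h6, h7, h8⟩ := h2 c hcJ
  have h9 := h6 hc2
  rw [h3, norm_mul]
  have h10 : 0 < ‖rep X z - c‖ := norm_pos_iff.2 h7
  have h11 : ‖rep B z‖ * ‖rep (X′) z‖ ≤ K c * ‖rep (X′ / (X - algebraMap ℂ Mer c)) z‖ := by
    rw [h8, norm_div, mul_div_assoc', le_div_iff₀ h10]
    calc ‖rep B z‖ * ‖rep (X′) z‖ * ‖rep X z - c‖ =
          (‖rep B z‖ * ‖rep X z - c‖) * ‖rep (X′) z‖ := by ring
      _ ≤ K c * ‖rep (X′) z‖ := mul_le_mul_of_nonneg_right h9 (norm_nonneg _)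
  refine h11.trans ?_
  refine mul_le_mul (Finset.single_le_sum (fun c _ => hK c) hcJ)
    (Finset.single_le_sum (f := fun c => ‖rep (X′ / (X - algebraMap ℂ Mer c)) z‖)
      (fun c _ => norm_nonneg _) hcJ) (norm_nonneg _) (Finset.sum_nonneg fun c _ => hK c)

/-- The global bound. -/
theorem glob_bound {X B : Mer} (hXne : ∀ c, X ≠ algebraMap ℂ Mer c)
    (h1 : ∀ c, TamAt X B c) (h2 : ∀ c, TamAt X⁻¹ (X ^ 2 * B) c) :
    ∃ (J J' : Finset ℂ) (K : ℝ), 0 ≤ K ∧ ∀ᶠ z in codiscrete ℂ,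
      ‖rep (B * X′) z‖ ≤ K * (∑ c ∈ J, ‖rep (X′ / (X - algebraMap ℂ Mer c)) z‖ +
        ∑ c ∈ J', ‖rep ((X⁻¹)′ / (X⁻¹ - algebraMap ℂ Mer c)) z‖) := by
  have hX0 : X ≠ 0 := by
    have := hXne 0
    rwa [map_zero] at this
  have hWne : ∀ c, X⁻¹ ≠ algebraMap ℂ Mer c := by
    intro c hc
    apply hXne c⁻¹
    rw [map_inv₀, ← hc, inv_inv]
  obtain ⟨J, K, hK, hb⟩ := ball_bound hXne h1
  obtain ⟨J', K', hK', hb'⟩ := ball_bound hWne h2
  refine ⟨J, J', K + K', by positivity, ?_⟩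
  have h4 : X ^ 2 * B * (X⁻¹)′ = -(B * X′) := by
    rw [Derivation.leibniz_inv]
    simp only [smul_eq_mul]
    field_simp
  rw [h4] at hb'
  have hneg : ∀ᶠ z in codiscrete ℂ, ‖rep (-(B * X′)) z‖ = ‖rep (B * X′) z‖ := by
    have h5 : -(B * X′) = algebraMap ℂ Mer (-1) * (B * X′) := by
      rw [map_neg, map_one]; ring
    rw [h5]
    filter_upwards [rep_mul (algebraMap ℂ Mer (-1)) (B * X′), rep_const (-1)] with z h6 h7
    rw [h6, h7, norm_mul, norm_neg, norm_one, one_mul]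
  filter_upwards [hb, hb', hneg, rep_inv X, rep_ne hX0] with z h5 h6 h7 h8 h9
  have hs1 : 0 ≤ ∑ c ∈ J, ‖rep (X′ / (X - algebraMap ℂ Mer c)) z‖ :=
    Finset.sum_nonneg fun c _ => norm_nonneg _
  have hs2 : 0 ≤ ∑ c ∈ J', ‖rep ((X⁻¹)′ / (X⁻¹ - algebraMap ℂ Mer c)) z‖ :=
    Finset.sum_nonneg fun c _ => norm_nonneg _
  by_cases h10 : ‖rep X z‖ ≤ 1
  · have h11 := h5 h10
    nlinarith [mul_nonneg hK' hs1, mul_nonneg hK' hs2, mul_nonneg hK hs2]
  · rw [not_le] at h10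
    have h11 : ‖rep X⁻¹ z‖ ≤ 1 := by
      rw [h8, norm_inv]
      exact inv_le_one_of_one_le₀ h10.le
    have h12 := h6 h11
    rw [h7] at h12
    nlinarith [mul_nonneg hK hs1, mul_nonneg hK hs2, mul_nonneg hK' hs1]

end Pool.MCB
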