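import Pool.Agent.Work.MP_f82ddf_cb.Val

/-!
# Theorem M, P6, analytic end: regular differentials give entire functions
-/

open Topology Filter Polynomial
open scoped Differential
open Pool.Agent.Work.MP_f82ddf_nt.DQ Pool.ThmM

namespace Pool.MCB

/-- The tameness condition at `c`. -/
def TamAt {R : Type} [Field R] [Algebra ℂ R] (x b : R) (c : ℂ) : Prop :=
  ∃ (N : ℕ) (s : ℂ[X]), 1 ≤ N ∧ s.eval c ≠ 0 ∧
    IntP x (aeval x s * b ^ N * (x - algebraMap ℂ R c) ^ (N - 1))

theorem TamAt.map {R S : Type} [Field R] [Algebra ℂ R] [Field S] [Algebra ℂ S] (ι : R →ₐ[ℂ] S)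
    {x b : R} {c : ℂ} (h : TamAt x b c) : TamAt (ι x) (ι b) c := by
  obtain ⟨N, s, hN, hs, h1⟩ := h
  refine ⟨N, s, hN, hs, ?_⟩
  have h2 := h1.map ι
  rw [map_mul, map_mul, map_pow, map_pow, map_sub, AlgHom.commutes,
    ← Polynomial.aeval_algHom_apply] at h2
  exact h2

theorem one_le_of_pos {a : WithTop ℤ} (h : 0 < a) : 1 ≤ a := by
  cases a with
  | top => exact le_top
  | coe n =>
    have h1 : (0 : ℤ) < n := by exact_mod_cast h
    have h2 : (1 : ℤ) ≤ n := by omega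
    exact_mod_cast h2

/-- The order of `x′`. -/
theorem om_sub_const_deriv {X : Mer} (c : ℂ) : (X - algebraMap ℂ Mer c)′ = X′ := by
  rw [map_sub, Mer.deriv_algebraMap, sub_zero]

/-- A polynomial in `X` not vanishing at `c` is a unit where `X = c`. -/
theorem om_aeval_eq_zero {X : Mer} {z c : ℂ} (hXc : 0 < om (X - algebraMap ℂ Mer c) z) {s : ℂ[X]}
    (hs : s.eval c ≠ 0) : om (aeval X s) z = 0 := by
  have hX : 0 ≤ om X z := by
    have h1 : X = (X - algebraMap ℂ Mer c) + algebraMap ℂ Mer c := by ring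
    rw [h1]
    exact om_add_le hXc.le (om_algebraMap_nonneg _ _)
  refine le_antisymm ?_ (om_aeval_nonneg hX s)
  by_contra hlt
  rw [not_le] at hlt
  obtain ⟨q, hq⟩ := Polynomial.X_sub_C_dvd_sub_C_eval (a := c) (p := s)
  have h2 : algebraMap ℂ Mer (s.eval c) =
      aeval X s - (X - algebraMap ℂ Mer c) * aeval X q := by
    have h3 := congrArg (aeval X) hq
    rw [map_sub, aeval_C, map_mul, map_sub, aeval_X, aeval_C] at h3
    linear_combination -h3
  have h4 := (all_VAL z).2.2.2.1 _ hs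
  have h5 : (1 : WithTop ℤ) ≤ om (algebraMap ℂ Mer (s.eval c)) z := by
    rw [h2]
    refine om_sub_le (one_le_of_pos hlt) ?_
    rw [om_mul]
    calc (1 : WithTop ℤ) = 1 + 0 := by norm_num
      _ ≤ _ := add_le_add (one_le_of_pos hXc) (om_aeval_nonneg hX q)
  rw [h4] at h5
  exact absurd h5 (by norm_num)

/-- Where `X = c` the function `B X′` has no pole. -/
theorem om_at (hLGD : Stmt_LGD) {X B : Mer} {z c : ℂ} (hXne : X ≠ algebraMap ℂ Mer c)
    (hXc : 0 < om (X - algebraMap ℂ Mer c) z) (hT : TamAt X B c) : 0 ≤ om (B * X′) z := by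
  obtain ⟨N, s, hN, hs, hint⟩ := hT
  by_cases hB : B = 0
  · rw [hB, zero_mul, om_zero]
    exact le_top
  have hX : 0 ≤ om X z := by
    have h1 : X = (X - algebraMap ℂ Mer c) + algebraMap ℂ Mer c := by ring
    rw [h1]
    exact om_add_le hXc.le (om_algebraMap_nonneg _ _)
  have hY : X - algebraMap ℂ Mer c ≠ 0 := sub_ne_zero.2 hXne
  have h1 := om_int_nonneg hX hint
  have h2 := om_aeval_eq_zero hXc hs
  have h3 := om_deriv hLGD hY z
  rw [om_sub_const_deriv] at h3
  rw [om_mul, om_mul, h2, zero_add, om_coe (pow_ne_zero _ hB), om_coe (pow_ne_zero _ hY),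
    all_DV1.2.2.2 _ _ hB, all_DV1.2.2.2 _ _ hY] at h1
  rw [om_coe hY] at hXc
  have h4 : (0 : ℤ) < dv1 (X - algebraMap ℂ Mer c) z := by exact_mod_cast hXc
  have h5 : (0 : ℤ) ≤ (N • dv1 B) z + ((N - 1) • dv1 (X - algebraMap ℂ Mer c)) z := by
    exact_mod_cast h1
  have h6 : ((N • dv1 B) z : ℤ) = N * dv1 B z := by
    rw [Function.locallyFinsuppWithin.coe_nsmul, Pi.smul_apply, nsmul_eq_mul]
  have h7 : (((N - 1) • dv1 (X - algebraMap ℂ Mer c)) z : ℤ) =
      ((N - 1 : ℕ) : ℤ) * dv1 (X - algebraMap ℂ Mer c) z := by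
    rw [Function.locallyFinsuppWithin.coe_nsmul, Pi.smul_apply, nsmul_eq_mul]
  rw [h6, h7, Nat.cast_sub hN] at h5
  have h8 : 0 ≤ dv1 B z + (dv1 (X - algebraMap ℂ Mer c) z - 1) := by
    by_contra hlt
    have h9 : dv1 B z + dv1 (X - algebraMap ℂ Mer c) z ≤ 0 := by omega
    have h10 : (N : ℤ) * (dv1 B z + dv1 (X - algebraMap ℂ Mer c) z) ≤ 0 :=
      mul_nonpos_of_nonneg_of_nonpos (by positivity) h9
    push_cast at h5
    nlinarith
  rw [om_mul, om_coe hB]
  calc (0 : WithTop ℤ) ≤ ((dv1 B z + (dv1 (X - algebraMap ℂ Mer c) z - 1) : ℤ) : WithTop ℤ) := by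
        exact_mod_cast h8
    _ = ((dv1 B z : ℤ) : WithTop ℤ) +
        ((dv1 (X - algebraMap ℂ Mer c) z - 1 : ℤ) : WithTop ℤ) := by
        rw [WithTop.coe_add]
    _ ≤ _ := add_le_add le_rfl h3

/-- The value of a function holomorphic at `z`. -/
theorem exists_value {X : Mer} {z : ℂ} (hX : 0 ≤ om X z) :
    ∃ c : ℂ, 0 < om (X - algebraMap ℂ Mer c) z := by
  by_cases h : 0 < om X z
  · exact ⟨0, by rwa [map_zero, sub_zero]⟩
  have h0 : om X z = 0 := le_antisymm (not_lt.1 h) hX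
  obtain ⟨hnf, hmer, hm, hmk⟩ := all_REP X
  have hmz := hnf (Set.mem_univ z)
  have ha : AnalyticAt ℂ (rep X) z := by
    refine (hmz.meromorphicOrderAt_nonneg_iff_analyticAt).1 ?_
    exact hX
  refine ⟨rep X z, ?_⟩
  have h2 : X - algebraMap ℂ Mer (rep X z) = Mer.mk (fun w => rep X w - rep X z)
      (fun w => (hm w).sub (MeromorphicAt.const _ w)) := by
    rw [← Mer.mk_sub (rep X) (fun _ => rep X z) hm (fun w => MeromorphicAt.const _ w), hmk,
      Mer.algebraMap_eq]
  have h3 : rep (X - algebraMap ℂ Mer (rep X z)) =ᶠ[codiscrete ℂ] fun w => rep X w - rep X z :=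
    all_ALG.1 _ _ _ h2
  have h4 : om (X - algebraMap ℂ Mer (rep X z)) z =
      meromorphicOrderAt (fun w => rep X w - rep X z) z := by
    refine meromorphicOrderAt_congr ?_
    exact ALG.cod.1 h3 z
  rw [h4]
  have h5 : AnalyticAt ℂ (fun w => rep X w - rep X z) z := ha.sub analyticAt_const
  rw [h5.meromorphicOrderAt_eq]
  have h6 : analyticOrderAt (fun w => rep X w - rep X z) z ≠ 0 := by
    rw [h5.analyticOrderAt_ne_zero]
    exact sub_self _
  cases h7 : analyticOrderAt (fun w => rep X w - rep X z) z with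
  | top => simp
  | coe n =>
    rw [h7] at h6
    have h8 : n ≠ 0 := by
      rintro rfl
      exact h6 rfl
    simp only [ENat.map_natCast]
    exact_mod_cast Nat.pos_of_ne_zero h8

/-- `B X′` is entire. -/
theorem om_ent (hLGD : Stmt_LGD) {X B : Mer} (hXne : ∀ c, X ≠ algebraMap ℂ Mer c)
    (h1 : ∀ c, TamAt X B c) (h2 : ∀ c, TamAt X⁻¹ (X ^ 2 * B) c) (z : ℂ) :
    0 ≤ om (B * X′) z := by
  have hX0 : X ≠ 0 := by
    have := hXne 0
    rwa [map_zero] at this
  by_cases hX : 0 ≤ om X z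
  · obtain ⟨c, hc⟩ := exists_value hX
    exact om_at hLGD (hXne c) hc (h1 c)
  · rw [not_le] at hX
    have hW : 0 < om (X⁻¹ - algebraMap ℂ Mer 0) z := by
      rw [map_zero, sub_zero, om_coe (inv_ne_zero hX0), all_DV1.2.1 X hX0]
      rw [om_coe hX0] at hX
      have h3 : dv1 X z < 0 := by exact_mod_cast hX
      have h4 : (0 : ℤ) < (-dv1 X) z := by
        rw [Function.locallyFinsuppWithin.coe_neg, Pi.neg_apply]
        omega
      exact_mod_cast h4
    have hWne : X⁻¹ ≠ algebraMap ℂ Mer 0 := by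
      rw [map_zero]
      exact inv_ne_zero hX0
    have h3 := om_at hLGD hWne hW (h2 0)
    have h4 : X ^ 2 * B * (X⁻¹)′ = -(B * X′) := by
      rw [Derivation.leibniz_inv]
      simp only [smul_eq_mul]
      field_simp
    rwa [h4, om_neg] at h3

end Pool.MCB
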