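import Pool.Agent.Work.MP_f82ddf_cb.Prx

/-!
# Theorem M, P6, analytic end: heights of algebraic functions
-/

open Topology Filter Polynomial
open scoped Differential
open Pool.Agent.Work.MP_f82ddf_nt.DQ Pool.ThmM

namespace Pool.MCB

/-- Heights of quotients of polynomials in `t`. -/
theorem tt_quot {t : Mer} (ht : t ≠ 0) (s₁ s₂ : ℂ[X]) (h2 : aeval t s₂ ≠ 0) :
    ∃ C : ℝ, 0 ≤ C ∧ ∀ r : ℝ, 1 ≤ r →
      TT ![aeval t s₁ / aeval t s₂, 1] r ≤ C * (TT ![t, 1] r + 1) := by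
  set D := max s₁.natDegree s₂.natDegree with hD
  let e : Fin (D + 1) → Mer := fun j => t ^ (j : ℕ)
  have hs : ∀ s : ℂ[X], s.natDegree ≤ D →
      aeval t s = ∑ j : Fin (D + 1), algebraMap ℂ Mer (s.coeff j) * e j := by
    intro s hs
    rw [Polynomial.aeval_eq_sum_range' (Nat.lt_succ_of_le hs) t, Finset.sum_range]
    exact Finset.sum_congr rfl fun j _ => Algebra.smul_def _ _
  obtain ⟨hT1, hT2⟩ := all_TOP (Fin (D + 1)) e
  have h1' := hs s₁ (le_max_left _ _)
  have h2' := hs s₂ (le_max_right _ _)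
  obtain ⟨C₁, hC₁⟩ := hT1 (fun j => s₁.coeff j) (fun j => s₂.coeff j) (by rw [← h2']; exact h2)
  obtain ⟨C₂, hC₂⟩ := hT2 0 (by change t ^ 0 ≠ 0; rw [pow_zero]; exact one_ne_zero)
  refine ⟨(D + 1 : ℕ) * D + |C₁| + |C₂|, by positivity, fun r hr => ?_⟩
  have h3 := hC₁ r hr
  have h4 := hC₂ r hr
  rw [← h1', ← h2'] at h3
  have hTt : 0 ≤ TT ![t, 1] r := (all_CHR t).2.2.1 r hr
  have h5 : ∑ j : Fin (D + 1), TT ![e j / e 0, 1] r ≤ (D + 1 : ℕ) * D * TT ![t, 1] r := by
    have h6 : ∀ j ∈ (Finset.univ : Finset (Fin (D + 1))), TT ![e j / e 0, 1] r ≤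
        D * TT ![t, 1] r := by
      intro j _
      have h7 : e j / e 0 = t ^ (j : ℕ) := by
        change t ^ (j : ℕ) / t ^ 0 = _
        rw [pow_zero, div_one]
      rw [h7, tt_pow t ht j r (by linarith)]
      refine mul_le_mul_of_nonneg_right ?_ hTt
      exact_mod_cast Nat.lt_succ_iff.1 j.2
    refine (Finset.sum_le_sum h6).trans ?_
    rw [Finset.sum_const, Finset.card_univ, Fintype.card_fin, nsmul_eq_mul, mul_assoc]
  have h8 := le_abs_self C₁
  have h9 := le_abs_self C₂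
  have h10 := mul_nonneg (abs_nonneg C₁) hTt
  have h11 := mul_nonneg (abs_nonneg C₂) hTt
  have h12 : (0 : ℝ) ≤ (D + 1 : ℕ) * D := by positivity
  nlinarith

/-- The polynomial with the root `X`, as a polynomial in one variable of type `Unit`. -/
noncomputable def tomv : Mer[X] →ₐ[Mer] MvPolynomial Unit Mer :=
  Polynomial.aeval (MvPolynomial.X ())

theorem coeff_tomv (P : Mer[X]) (α : Unit →₀ ℕ) :
    MvPolynomial.coeff α (tomv P) = P.coeff (α ()) := by
  classical
  unfold tomv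
  rw [Polynomial.aeval_eq_sum_range, MvPolynomial.coeff_sum]
  have h1 : ∀ i ∈ Finset.range (P.natDegree + 1),
      MvPolynomial.coeff α (P.coeff i • (MvPolynomial.X () : MvPolynomial Unit Mer) ^ i) =
        if i = α () then P.coeff i else 0 := by
    intro i _
    rw [MvPolynomial.coeff_smul, MvPolynomial.coeff_X_pow, smul_eq_mul]
    by_cases hi : i = α ()
    · rw [if_pos hi, if_pos (by
        ext
        rw [Finsupp.single_apply, if_pos (Subsingleton.elim _ _), hi]), mul_one]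
    · rw [if_neg hi, if_neg (by
        intro h
        apply hi
        rw [← h, Finsupp.single_eq_same]), mul_zero]
  rw [Finset.sum_congr rfl h1, Finset.sum_ite_eq']
  by_cases h2 : α () ∈ Finset.range (P.natDegree + 1)
  · rw [if_pos h2]
  · rw [if_neg h2]
    rw [Finset.mem_range, not_lt] at h2
    exact (Polynomial.coeff_eq_zero_of_natDegree_lt (by omega)).symm

/-- Heights of tuples are bounded below. -/
theorem tt_lower {ι : Type} [Fintype ι] (c : ι → Mer) (hc : c ≠ 0) :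
    ∃ K : ℝ, ∀ r : ℝ, 1 ≤ r → -K ≤ TT c r := by
  classical
  obtain ⟨i, hi⟩ := Function.ne_iff.1 hc
  obtain ⟨-, C, K, -, -, h3⟩ := all_LOW ι c (Pi.single i 1) (c i) (by
    rw [Finset.sum_eq_single i]
    · rw [Pi.single_eq_same, map_one, one_mul]
    · intro j _ hj
      rw [Pi.single_eq_of_ne hj, map_zero, zero_mul]
    · intro h
      exact absurd (Finset.mem_univ i) h) hi
  exact ⟨K, h3⟩

theorem cf_ne_zero {σ : Type} {F : MvPolynomial σ Mer} (hF : F ≠ 0) : cf F ≠ 0 := by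
  obtain ⟨α, hα⟩ := MvPolynomial.ne_zero_iff.1 hF
  intro h
  exact hα (congrFun h ⟨α, MvPolynomial.mem_support_iff.2 hα⟩)

/-- Heights of algebraic functions. -/
theorem height_alg {X t : Mer} (hX : X ≠ 0) (ht : t ≠ 0)
    (htr : ∀ s : ℂ[X], s ≠ 0 → aeval t s ≠ 0) (p : ℂ[X][X]) (hp : p ≠ 0)
    (h : p.eval₂ (aeval t : ℂ[X] →ₐ[ℂ] Mer).toRingHom X = 0) :
    ∃ C : ℝ, 0 ≤ C ∧ ∀ r : ℝ, 1 ≤ r → TT ![X, 1] r ≤ C * (TT ![t, 1] r + 1) := by
  classical
  set P : Mer[X] := p.map (aeval t : ℂ[X] →ₐ[ℂ] Mer).toRingHom with hP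
  have hPc : ∀ i, P.coeff i = aeval t (p.coeff i) := by
    intro i
    rw [hP, Polynomial.coeff_map]
    rfl
  have hroot : P.IsRoot X := by
    rw [Polynomial.IsRoot.def, hP, Polynomial.eval_map]
    exact h
  obtain ⟨G, hG⟩ := Polynomial.dvd_iff_isRoot.2 hroot
  set A := tomv P with hA
  set F : MvPolynomial Unit Mer := tomv (Polynomial.X - Polynomial.C X) with hF
  set G' := tomv G with hG'
  have hAFG : A = F * G' := by rw [hA, hG, map_mul]
  have hlead : p.leadingCoeff ≠ 0 := Polynomial.leadingCoeff_ne_zero.2 hp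
  have hA0 : A ≠ 0 := by
    intro h0
    have h1 := coeff_tomv P (Finsupp.single () p.natDegree)
    rw [← hA, h0, MvPolynomial.coeff_zero, Finsupp.single_eq_same, hPc] at h1
    exact htr _ hlead h1.symm
  have hF0 : F ≠ 0 := fun h0 => hA0 (by rw [hAFG, h0, zero_mul])
  have hG0 : G' ≠ 0 := fun h0 => hA0 (by rw [hAFG, h0, mul_zero])
  obtain ⟨C₁, hC₁⟩ := all_GEL Unit F G' hF0 hG0
  rw [← hAFG] at hC₁
  obtain ⟨K, hK⟩ := tt_lower (cf G') (cf_ne_zero hG0)
  -- the linear factor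
  have hFc : ∀ α : Unit →₀ ℕ, MvPolynomial.coeff α F =
      (Polynomial.X - Polynomial.C X : Mer[X]).coeff (α ()) := fun α => coeff_tomv _ α
  have hF1 : MvPolynomial.coeff (Finsupp.single () 1) F = 1 := by
    rw [hFc, Finsupp.single_eq_same, Polynomial.coeff_sub, Polynomial.coeff_X_one,
      Polynomial.coeff_C_of_ne_zero one_ne_zero, sub_zero]
  have hF00 : MvPolynomial.coeff 0 F = -X := by
    rw [hFc]
    change (Polynomial.X - Polynomial.C X : Mer[X]).coeff 0 = -X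
    rw [Polynomial.coeff_sub, Polynomial.coeff_X_zero, Polynomial.coeff_C_zero, zero_sub]
  have hm1 : Finsupp.single () 1 ∈ F.support := by
    rw [MvPolynomial.mem_support_iff, hF1]
    exact one_ne_zero
  have hm0 : (0 : Unit →₀ ℕ) ∈ F.support := by
    rw [MvPolynomial.mem_support_iff, hF00]
    exact neg_ne_zero.2 hX
  have hsum : ∀ (β : F.support) (a : ℂ),
      ∑ i : F.support, algebraMap ℂ Mer ((Pi.single β a : F.support → ℂ) i) * cf F i =
        algebraMap ℂ Mer a * cf F β := by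
    intro β a
    rw [Finset.sum_eq_single β]
    · rw [Pi.single_eq_same]
    · intro j _ hj
      rw [Pi.single_eq_of_ne hj, map_zero, zero_mul]
    · intro h
      exact absurd (Finset.mem_univ β) h
  obtain ⟨C₂, hC₂⟩ := (all_TOP F.support (cf F)).1 (Pi.single ⟨0, hm0⟩ (-1))
    (Pi.single ⟨Finsupp.single () 1, hm1⟩ 1) (by
      rw [hsum, map_one, one_mul]
      change MvPolynomial.coeff (Finsupp.single () 1) F ≠ 0
      rw [hF1]
      exact one_ne_zero)
  rw [hsum, hsum, map_one, one_mul] at hC₂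
  have hq : algebraMap ℂ Mer (-1) * cf F ⟨0, hm0⟩ / cf F ⟨Finsupp.single () 1, hm1⟩ = X := by
    change algebraMap ℂ Mer (-1) * MvPolynomial.coeff 0 F /
      MvPolynomial.coeff (Finsupp.single () 1) F = X
    rw [hF1, hF00, map_neg, map_one, div_one]
    ring
  rw [hq] at hC₂
  -- the coefficients of `A`
  obtain ⟨i₀, hi₀⟩ := Function.ne_iff.1 (cf_ne_zero hA0)
  obtain ⟨C₃, hC₃⟩ := (all_TOP A.support (cf A)).2 i₀ hi₀
  have hAc : ∀ α : Unit →₀ ℕ, MvPolynomial.coeff α A = aeval t (p.coeff (α ())) := by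
    intro α
    rw [hA, coeff_tomv, hPc]
  have hcf : ∀ i : A.support, cf A i = aeval t (p.coeff ((i : Unit →₀ ℕ) ())) :=
    fun i => hAc _
  have hquot : ∀ i : A.support, ∃ C : ℝ, 0 ≤ C ∧ ∀ r : ℝ, 1 ≤ r →
      TT ![cf A i / cf A i₀, 1] r ≤ C * (TT ![t, 1] r + 1) := by
    intro i
    rw [hcf i, hcf i₀]
    refine tt_quot ht _ _ ?_
    rw [← hcf i₀]
    exact hi₀
  choose C₄ hC₄0 hC₄ using hquot
  refine ⟨∑ i, C₄ i + |C₁| + |K| + |C₂| + |C₃|, by
    have := Finset.sum_nonneg fun i (_ : i ∈ Finset.univ) => hC₄0 i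
    positivity, fun r hr => ?_⟩
  have hr0 : r ≠ 0 := by linarith
  have h1 := (abs_le.1 (hC₁ r hr0).2).1
  have h2 := hK r hr
  have h3 := hC₂ r hr
  have h4 := hC₃ r hr
  have h5 : ∑ i, TT ![cf A i / cf A i₀, 1] r ≤ (∑ i, C₄ i) * (TT ![t, 1] r + 1) := by
    rw [Finset.sum_mul]
    exact Finset.sum_le_sum fun i _ => hC₄ i r hr
  have hTt : 0 ≤ TT ![t, 1] r := (all_CHR t).2.2.1 r hr
  have h6 : TT (cf F) r + TT (cf G') r ≤ TT (cf A) r + |C₁| := by
    have h7 : TP A r - TP F r - TP G' r = TT (cf A) r - TT (cf F) r - TT (cf G') r := rfl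
    rw [h7] at h1
    have := le_abs_self C₁
    linarith
  have a1 := mul_nonneg (abs_nonneg C₁) hTt
  have a2 := mul_nonneg (abs_nonneg K) hTt
  have a3 := mul_nonneg (abs_nonneg C₂) hTt
  have a4 := mul_nonneg (abs_nonneg C₃) hTt
  have b2 := le_abs_self K
  have b3 := le_abs_self C₂
  have b4 := le_abs_self C₃
  nlinarith

end Pool.MCB
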