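import Pool.Agent.Work.MP_f82ddf_cb.Bnd

/-!
# Theorem M, P6, analytic end: proximity functions
-/

open Topology Filter Polynomial
open scoped Differential
open Pool.Agent.Work.MP_f82ddf_nt.DQ Pool.ThmM

namespace Pool.MCB

/-- The mean of `log⁺` of a function bounded by a sum. -/
theorem mp_bound {ι : Type} (s : Finset ι) (G : ι → Mer) (h : Mer) (K : ℝ)
    (hb : ∀ᶠ z in codiscrete ℂ, ‖rep h z‖ ≤ K * ∑ i ∈ s, ‖rep (G i) z‖) :
    ∃ C : ℝ, ∀ r : ℝ, r ≠ 0 → MP h r ≤ ∑ i ∈ s, MP (G i) r + C := by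
  refine ⟨Real.posLog K + Real.log s.card, fun r hr => ?_⟩
  have h1 : CircleIntegrable (fun z => ∑ i ∈ s, Real.posLog ‖rep (G i) z‖) 0 r :=
    CircleIntegrable.fun_sum s fun i _ => TOP.ci (G i) r
  have h2 : CircleIntegrable (fun _ : ℂ => Real.posLog K + Real.log s.card) 0 r :=
    circleIntegrable_const _ _ _
  have h3 : Real.circleAverage (fun z => Real.posLog ‖rep h z‖) 0 r ≤
      Real.circleAverage (fun z => ∑ i ∈ s, Real.posLog ‖rep (G i) z‖ +
        (Real.posLog K + Real.log s.card)) 0 r := by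
    refine all_CMP _ _ r hr (TOP.ci h r) (h1.add h2) ?_
    filter_upwards [hb] with z hz
    have h4 : Real.posLog ‖rep h z‖ ≤ Real.posLog (K * ∑ i ∈ s, ‖rep (G i) z‖) :=
      Real.posLog_le_posLog (norm_nonneg _) hz
    have h5 := Real.posLog_mul (x := K) (y := ∑ i ∈ s, ‖rep (G i) z‖)
    have h6 := Real.posLog_sum s fun i => ‖rep (G i) z‖
    linarith
  rw [Real.circleAverage_fun_add h1 h2, Real.circleAverage_const,
    Real.circleAverage_fun_sum fun i _ => TOP.ci (G i) r] at h3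
  exact h3

/-- The height of a pair of entire functions. -/
theorem tt_pair {h₁ h₂ : Mer} (hne : h₂ ≠ 0) (H₁ : ∀ z, 0 ≤ om h₁ z) (H₂ : ∀ z, 0 ≤ om h₂ z)
    (r : ℝ) (hr : 1 ≤ r) : TT ![h₁, h₂] r ≤ MP h₁ r + MP h₂ r := by
  have hc : (![h₁, h₂] : Fin 2 → Mer) ≠ 0 := fun h => hne (by simpa using congrFun h 1)
  obtain ⟨hmer, hord⟩ := all_ORD (Fin 2) ![h₁, h₂]
  have hdv : 0 ≤ dv ![h₁, h₂] := by
    intro z
    obtain ⟨i, hi0, hi⟩ := (hord hc z).2
    rw [← hi]
    have h1 : 0 ≤ om (![h₁, h₂] i) z := by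
      fin_cases i
      · exact H₁ z
      · exact H₂ z
    rw [om_coe hi0] at h1
    exact_mod_cast h1
  have h2 := all_NNP.2.2.2.2.1 _ r hdv hr
  have h3 : LL ![h₁, h₂] r ≤ MP h₁ r + MP h₂ r := by
    have h4 : Real.circleAverage (fun z => Real.log ‖vec ![h₁, h₂] z‖) 0 r ≤
        Real.circleAverage (fun z => Real.posLog ‖rep h₁ z‖ + Real.posLog ‖rep h₂ z‖) 0 r := by
      refine Real.circleAverage_mono ?_ ((TOP.ci h₁ r).add (TOP.ci h₂ r)) ?_
      · exact MeromorphicOn.circleIntegrable_log_norm fun z _ => hmer z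
      · intro z _
        have h5 := TOP.log_le (vec ![h₁, h₂] z)
        rw [Fin.sum_univ_two] at h5
        exact h5
    rw [Real.circleAverage_fun_add (TOP.ci h₁ r) (TOP.ci h₂ r)] at h4
    exact h4
  unfold TT
  linarith

/-- Heights of powers. -/
theorem tt_pow (t : Mer) (ht : t ≠ 0) (j : ℕ) (r : ℝ) (hr : r ≠ 0) :
    TT ![t ^ j, 1] r = j * TT ![t, 1] r := by
  rw [(all_CHR (t ^ j)).2.2.2 r hr, (all_CHR t).2.2.2 r hr, all_DV1.2.2.2 t j ht]
  have h1 : MP (t ^ j) r = j * MP t r := by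
    have h2 : (fun z => Real.posLog ‖rep (t ^ j) z‖) =ᶠ[codiscrete ℂ]
        fun z => (j : ℝ) * Real.posLog ‖rep t z‖ := by
      filter_upwards [rep_pow t j] with z hz
      rw [hz, norm_pow, Real.posLog_pow]
    have h3 : (fun z => Real.posLog ‖rep (t ^ j) z‖)
        =ᶠ[codiscreteWithin (Metric.sphere (0 : ℂ) |r|)]
        fun z => (j : ℝ) * Real.posLog ‖rep t z‖ :=
      h2.filter_mono (codiscreteWithin_mono (Set.subset_univ _))
    unfold MP
    rw [Real.circleAverage_congr_codiscreteWithin h3 hr]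
    have h4 := Real.circleAverage_fun_smul (a := (j : ℝ)) (f := fun z => Real.posLog ‖rep t z‖)
      (c := (0 : ℂ)) (R := r)
    simpa only [smul_eq_mul] using h4
  have h2 : NN (j • dv1 t)⁻ r = j * NN (dv1 t)⁻ r := by
    have h3 : (j • dv1 t)⁻ = j • (dv1 t)⁻ := by
      ext z
      have h4 : (j • dv1 t)⁻ z = ((j • dv1 t) z)⁻ := rfl
      have h5 : (j • dv1 t) z = j * dv1 t z := by
        rw [Function.locallyFinsuppWithin.coe_nsmul, Pi.smul_apply, nsmul_eq_mul]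
      have h6 : (j • (dv1 t)⁻) z = j * (dv1 t)⁻ z := by
        rw [Function.locallyFinsuppWithin.coe_nsmul, Pi.smul_apply, nsmul_eq_mul]
      have h7 : (dv1 t)⁻ z = (dv1 t z)⁻ := rfl
      rw [h4, h5, h6, h7]
      have hj : (0 : ℤ) ≤ j := Int.natCast_nonneg j
      rcases le_total 0 (dv1 t z) with h8 | h8
      · rw [negPart_eq_zero.2 h8, negPart_eq_zero.2 (mul_nonneg hj h8), mul_zero]
      · rw [negPart_eq_neg.2 h8, negPart_eq_neg.2 (mul_nonpos_of_nonneg_of_nonpos hj h8)]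
        ring
    rw [h3, all_NNP.2.2.1]
  rw [h1, h2]
  ring

end Pool.MCB
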