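import Pool.Agent.Work.MP_f82ddf_M1.All1
import Pool.Agent.Work.MP_f82ddf_M1.Interface2
import Pool.Agent.Work.MP_f82ddf_cl.Defs

/-!
# Theorem M, P6, analytic end: orders
-/

open Topology Filter Polynomial
open scoped Differential
open Pool.Agent.Work.MP_f82ddf_nt.DQ Pool.ThmM

namespace Pool.MCB

/-- `y` is integral over `ℂ[x]`. -/
def IntP {R : Type} [Field R] [Algebra ℂ R] (x y : R) : Prop :=
  ∃ p : ℂ[X][X], p.Monic ∧ p.eval₂ (aeval x : ℂ[X] →ₐ[ℂ] R).toRingHom y = 0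

theorem IntP.map {R S : Type} [Field R] [Algebra ℂ R] [Field S] [Algebra ℂ S] (ι : R →ₐ[ℂ] S)
    {x y : R} (h : IntP x y) : IntP (ι x) (ι y) := by
  obtain ⟨p, hp, h0⟩ := h
  refine ⟨p, hp, ?_⟩
  have h1 : (aeval (ι x) : ℂ[X] →ₐ[ℂ] S).toRingHom =
      (ι : R →+* S).comp (aeval x : ℂ[X] →ₐ[ℂ] R).toRingHom := by
    ext a
    · simp
    · simp
  rw [h1]
  have h2 := Polynomial.hom_eval₂ p (aeval x : ℂ[X] →ₐ[ℂ] R).toRingHom (ι : R →+* S) y
  change (ι : R →+* S) _ = Polynomial.eval₂ _ ((ι : R →+* S) y) p at h2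
  rw [h0, map_zero] at h2
  exact h2.symm

theorem intP_of_mem {R : Type} [Field R] [Algebra ℂ R] {x y : R} (h : y ∈ Pool.MCL.IntC x) :
    IntP x y := by
  rw [Pool.MCL.mem_IntC] at h
  obtain ⟨q, hq, h0⟩ := h
  have hmem : ∀ f : ℂ[X], aeval x f ∈ Pool.MCL.Px x := by
    intro f
    change aeval x f ∈ Algebra.adjoin ℂ {x}
    rw [Algebra.adjoin_singleton_eq_range_aeval]
    exact ⟨f, rfl⟩
  let ψ : ℂ[X] →+* Pool.MCL.Px x :=
    (aeval x : ℂ[X] →ₐ[ℂ] R).toRingHom.codRestrict (Pool.MCL.Px x).toSubring hmem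
  have hψ : Function.Surjective ψ := by
    rintro ⟨y, hy⟩
    have hy' := hy
    change y ∈ Algebra.adjoin ℂ {x} at hy'
    rw [Algebra.adjoin_singleton_eq_range_aeval] at hy'
    obtain ⟨f, hf⟩ := hy'
    exact ⟨f, Subtype.ext hf⟩
  have hl : q ∈ Polynomial.lifts ψ := by
    rw [Polynomial.lifts_iff_coeff_lifts]
    intro n
    exact hψ _
  obtain ⟨p, hp1, -, hp2⟩ := Polynomial.lifts_and_natDegree_eq_and_monic hl hq
  refine ⟨p, hp2, ?_⟩
  have h1 : (aeval x : ℂ[X] →ₐ[ℂ] R).toRingHom =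
      (algebraMap (Pool.MCL.Px x) R).comp ψ := rfl
  rw [h1, ← Polynomial.eval₂_map, hp1]
  exact h0

theorem om_coe {f : Mer} (hf : f ≠ 0) (z : ℂ) : om f z = ((dv1 f z : ℤ) : WithTop ℤ) :=
  (all_VAL z).2.2.2.2.1 f hf

theorem om_zero (z : ℂ) : om 0 z = ⊤ := ((all_VAL z).2.2.1 0).2 rfl

theorem om_mul (f g : Mer) (z : ℂ) : om (f * g) z = om f z + om g z := (all_VAL z).1 f g

theorem om_one (z : ℂ) : om 1 z = 0 := by
  have h := (all_VAL z).2.2.2.1 1 one_ne_zero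
  rwa [map_one] at h

theorem om_algebraMap_nonneg (a : ℂ) (z : ℂ) : 0 ≤ om (algebraMap ℂ Mer a) z := by
  by_cases ha : a = 0
  · rw [ha, map_zero, om_zero]
    exact le_top
  · rw [(all_VAL z).2.2.2.1 a ha]

theorem om_neg (f : Mer) (z : ℂ) : om (-f) z = om f z := by
  have h1 : -f = algebraMap ℂ Mer (-1) * f := by
    rw [map_neg, map_one]; ring
  rw [h1, om_mul, (all_VAL z).2.2.2.1 (-1) (by norm_num), zero_add]

theorem om_add_le {f g : Mer} {z : ℂ} {b : WithTop ℤ} (hf : b ≤ om f z) (hg : b ≤ om g z) :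
    b ≤ om (f + g) z := le_trans (le_min hf hg) ((all_VAL z).2.1 f g)

theorem om_sub_le {f g : Mer} {z : ℂ} {b : WithTop ℤ} (hf : b ≤ om f z) (hg : b ≤ om g z) :
    b ≤ om (f - g) z := by
  rw [sub_eq_add_neg]
  exact om_add_le hf (by rwa [om_neg])

theorem om_sum_le {ι : Type} (s : Finset ι) (f : ι → Mer) (z : ℂ) (b : WithTop ℤ)
    (h : ∀ i ∈ s, b ≤ om (f i) z) : b ≤ om (∑ i ∈ s, f i) z := by
  classical
  induction s using Finset.induction_on with
  | empty => rw [Finset.sum_empty, om_zero]; exact le_top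
  | insert i s his ih =>
    rw [Finset.sum_insert his]
    exact om_add_le (h i (Finset.mem_insert_self i s))
      (ih fun j hj => h j (Finset.mem_insert_of_mem hj))

theorem om_pow_nonneg {f : Mer} {z : ℂ} (hf : 0 ≤ om f z) (n : ℕ) : 0 ≤ om (f ^ n) z := by
  induction n with
  | zero => rw [pow_zero, om_one]
  | succ n ih => rw [pow_succ, om_mul]; exact add_nonneg ih hf

theorem om_aeval_nonneg {f : Mer} {z : ℂ} (hf : 0 ≤ om f z) (s : ℂ[X]) :
    0 ≤ om (aeval f s) z := by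
  rw [Polynomial.aeval_eq_sum_range]
  refine om_sum_le _ _ _ _ fun i _ => ?_
  rw [Algebra.smul_def, om_mul]
  exact add_nonneg (om_algebraMap_nonneg _ _) (om_pow_nonneg hf i)

/-- Integral elements have no poles where `x` has none. -/
theorem om_int_nonneg {X y : Mer} {z : ℂ} (hX : 0 ≤ om X z) (hy : IntP X y) : 0 ≤ om y z := by
  obtain ⟨p, hp, h0⟩ := hy
  by_contra hlt
  rw [not_le] at hlt
  have hy0 : y ≠ 0 := by
    rintro rfl
    rw [om_zero] at hlt
    exact absurd hlt (not_lt.2 le_top)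
  have hw : 1 ≤ om y⁻¹ z := by
    have h1 := all_DV1.2.1 y hy0
    rw [om_coe (inv_ne_zero hy0), h1]
    rw [om_coe hy0] at hlt
    have h2 : dv1 y z < 0 := by exact_mod_cast hlt
    have h3 : (1 : ℤ) ≤ (-dv1 y) z := by
      rw [Function.locallyFinsuppWithin.coe_neg, Pi.neg_apply]
      omega
    exact_mod_cast h3
  set n := p.natDegree with hn
  set φ := (aeval X : ℂ[X] →ₐ[ℂ] Mer).toRingHom with hφ
  have h2 : (1 : Mer) = -∑ i ∈ Finset.range n, φ (p.coeff i) * y⁻¹ ^ (n - i) := by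
    rw [Polynomial.eval₂_eq_sum_range, Finset.sum_range_succ] at h0
    have h3 : p.coeff p.natDegree = 1 := hp
    rw [h3, map_one, one_mul] at h0
    have h4 : (∑ i ∈ Finset.range n, φ (p.coeff i) * y ^ i) * y⁻¹ ^ n +
        y ^ n * y⁻¹ ^ n = 0 := by
      rw [← add_mul, h0, zero_mul]
    rw [← mul_pow, mul_inv_cancel₀ hy0, one_pow, Finset.sum_mul] at h4
    have h5 : ∀ i ∈ Finset.range n, φ (p.coeff i) * y ^ i * y⁻¹ ^ n =
        φ (p.coeff i) * y⁻¹ ^ (n - i) := by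
      intro i hi
      have h6 : y⁻¹ ^ n = y⁻¹ ^ i * y⁻¹ ^ (n - i) := by
        rw [← pow_add]
        congr 1
        have := Finset.mem_range.1 hi
        omega
      rw [h6]
      have h7 : y ^ i * y⁻¹ ^ i = 1 := by rw [← mul_pow, mul_inv_cancel₀ hy0, one_pow]
      linear_combination (φ (p.coeff i) * y⁻¹ ^ (n - i)) * h7
    rw [Finset.sum_congr rfl h5] at h4
    linear_combination h4
  have h3 : (1 : WithTop ℤ) ≤ om 1 z := by
    rw [h2, om_neg]
    refine om_sum_le _ _ _ _ fun i hi => ?_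
    have hi' := Finset.mem_range.1 hi
    rw [om_mul]
    have h4 : 0 ≤ om (φ (p.coeff i)) z := om_aeval_nonneg hX _
    have h5 : 1 ≤ om (y⁻¹ ^ (n - i)) z := by
      obtain ⟨m, hm⟩ : ∃ m, n - i = m + 1 := ⟨n - i - 1, by omega⟩
      rw [hm, pow_succ, om_mul]
      have h6 : 0 ≤ om (y⁻¹ ^ m) z := om_pow_nonneg (le_trans (by norm_num) hw) m
      calc (1 : WithTop ℤ) = 0 + 1 := by norm_num
        _ ≤ _ := add_le_add h6 hw
    calc (1 : WithTop ℤ) = 0 + 1 := by norm_num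
      _ ≤ _ := add_le_add h4 h5
  rw [om_one] at h3
  exact absurd h3 (by norm_num)

/-- The derivative lowers the order at most by one. -/
theorem om_deriv (hLGD : Stmt_LGD) {f : Mer} (hf : f ≠ 0) (z : ℂ) :
    ((dv1 f z - 1 : ℤ) : WithTop ℤ) ≤ om (f′) z := by
  have h1 := hLGD f z (dv1 f z) hf le_rfl
  rw [sub_self] at h1
  have h2 : (-1 : WithTop ℤ) ≤ om (f′ / f) z := by
    have h3 : f′ / f = (f′ / f + -(algebraMap ℂ Mer (dv1 f z : ℤ) * (zt z)⁻¹)) +
        algebraMap ℂ Mer (dv1 f z : ℤ) * (zt z)⁻¹ := by ring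
    rw [h3]
    refine om_add_le (le_trans ?_ h1) ?_
    · have h5 : ((-1 : ℤ) : WithTop ℤ) ≤ ((-min 0 1 : ℤ) : WithTop ℤ) := by
        exact WithTop.coe_le_coe.2 (by norm_num)
      exact h5
    · rw [om_mul]
      have h4 : om (zt z)⁻¹ z = -1 := by
        have h5 : zt z ≠ 0 := by
          intro h0
          have h6 := (all_VAL z).2.2.2.2.2
          rw [h0, om_zero] at h6
          exact absurd h6 (by simp)
        have h7 := (all_VAL z).2.2.2.2.2
        have h8 := om_mul (zt z) (zt z)⁻¹ z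
        rw [mul_inv_cancel₀ h5, om_one, h7, om_coe (inv_ne_zero h5)] at h8
        have h9 : (0 : ℤ) = 1 + dv1 (zt z)⁻¹ z := by exact_mod_cast h8
        rw [om_coe (inv_ne_zero h5)]
        have h10 : dv1 (zt z)⁻¹ z = -1 := by omega
        rw [h10]
        rfl
      rw [h4]
      calc (-1 : WithTop ℤ) = 0 + -1 := by norm_num
        _ ≤ _ := add_le_add (om_algebraMap_nonneg _ _) le_rfl
  have h3 : f′ = f′ / f * f := by field_simp
  rw [h3, om_mul, om_coe hf]
  calc ((dv1 f z - 1 : ℤ) : WithTop ℤ) = -1 + ((dv1 f z : ℤ) : WithTop ℤ) := by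
        rw [show dv1 f z - 1 = -1 + dv1 f z by ring]
        rfl
    _ ≤ _ := add_le_add h2 le_rfl

end Pool.MCB
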